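import Pool.Agent.MP_cce4c9_lc.H7.BaseA

/-! The cocycle computes the Kummer pairing. -/

set_option autoImplicit false

open WithZero Finsupp

namespace Pool.Agent.MP_cce4c9_lc.H36

open Pool.Agent.MP_cce4c9_lc.H87 Pool.Agent.MP_cce4c9_lc.H7

section EvD

variable {k K : Type} [Field k] [Field K] [Algebra k K]

theorem off_add {h : K} {D E : Dv k K} (hD : Off h D) (hE : Off h E) : Off h (D + E) :=
  fun v hv => by
    by_cases h1 : D v = 0
    · exact hE v fun h2 => hv (by simp [h1, h2])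
    · exact hD v h1

theorem off_neg {h : K} {D : Dv k K} (hD : Off h D) : Off h (-D) :=
  fun v hv => hD v fun h1 => hv (by simp [h1])

theorem off_smul {h : K} {D : Dv k K} (hD : Off h D) (n : ℤ) : Off h (n • D) :=
  fun v hv => hD v fun h1 => hv (by simp [h1])

theorem off_single {h : K} {v : Place k K} (hv : v.val h = 1) (n : ℤ) : Off h (single v n) :=
  fun w hw => by
    classical
    by_cases e : v = w
    · exact e ▸ hv
    · exact absurd (single_eq_of_ne' e) hw

theorem evD_single (h : K) (v : Place k K) (n : ℤ) : evD h (single v n) = v.ev h ^ n :=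
  prod_single_index (zpow_zero _)

theorem evD_eq (h : K) (D : Dv k K) {S : Finset (Place k K)} (hS : D.support ⊆ S) :
    evD h D = ∏ v ∈ S, v.ev h ^ D v :=
  prod_of_support_subset D hS _ fun _ _ => zpow_zero _

theorem evD_smul (h : K) (D : Dv k K) (n : ℤ) : evD h (n • D) = evD h D ^ n := by
  rw [evD_eq h (n • D) support_smul, evD_eq h D subset_rfl, ← Finset.prod_zpow]
  exact Finset.prod_congr rfl fun v _ => by
    rw [Finsupp.smul_apply, smul_eq_mul, mul_comm, zpow_mul]

theorem evD_neg (h : K) (D : Dv k K) : evD h (-D) = (evD h D)⁻¹ := by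
  rw [← neg_one_zsmul, evD_smul, zpow_neg_one]

variable [IsAlgClosed k]

theorem evD_add (hK : IsFF k K) {h : K} {D E : Dv k K} (hD : Off h D) (hE : Off h E) :
    evD h (D + E) = evD h D * evD h E := by
  classical
  rw [evD_eq h (D + E) support_add, evD_eq h D Finset.subset_union_left,
    evD_eq h E Finset.subset_union_right, ← Finset.prod_mul_distrib]
  refine Finset.prod_congr rfl fun v hv => ?_
  have h1 : v.val h = 1 := by
    rcases Finset.mem_union.1 hv with h2 | h2
    · exact hD v (mem_support_iff.1 h2)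
    · exact hE v (mem_support_iff.1 h2)
  rw [Finsupp.add_apply, zpow_add₀ ((res hK v).ev_ne_zero h1)]

theorem evD_ne (hK : IsFF k K) {h : K} {D : Dv k K} (hD : Off h D) : evD h D ≠ 0 :=
  Finset.prod_ne_zero_iff.2 fun v hv =>
    zpow_ne_zero _ ((res hK v).ev_ne_zero (hD v (mem_support_iff.1 hv)))

theorem evD_mul (hK : IsFF k K) {g h : K} {D : Dv k K} (hg : Off g D) (hh : Off h D) :
    evD (g * h) D = evD g D * evD h D := by
  rw [evD, evD, evD, ← prod_mul]
  exact prod_congr fun v hv => by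
    rw [(res hK v).ev_mul (hg v (mem_support_iff.1 hv)).le (hh v (mem_support_iff.1 hv)).le,
      mul_zpow]

theorem evD_pow (hK : IsFF k K) {h : K} {D : Dv k K} (hh : Off h D) (n : ℕ) :
    evD (h ^ n) D = evD h D ^ n := by
  rw [evD, evD, Finsupp.prod, Finsupp.prod, ← Finset.prod_pow]
  exact Finset.prod_congr rfl fun v hv => by
    rw [(res hK v).ev_pow (hh v (mem_support_iff.1 hv)).le, ← zpow_natCast, ← zpow_natCast,
      ← zpow_mul, ← zpow_mul, mul_comm]

theorem dv_ap (hK : IsFF k K) (h : K) (v : Place k K) : dv k h v = v.ord h :=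
  dv_apply (fins hK h) v

theorem dv_mul (hK : IsFF k K) {g h : K} (hg : g ≠ 0) (hh : h ≠ 0) :
    dv k (g * h) = dv k g + dv k h := by
  ext v
  rw [Finsupp.add_apply, dv_ap hK, dv_ap hK, dv_ap hK, v.ord_mul (v.val_ne hg) (v.val_ne hh)]

theorem dv_pow (hK : IsFF k K) (h : K) (n : ℕ) : dv k (h ^ n) = (n : ℤ) • dv k h := by
  ext v
  rw [Finsupp.smul_apply, dv_ap hK, dv_ap hK, v.ord_pow, smul_eq_mul]

theorem dv_act (hK : IsFF k K) (θ : SA k K) (h : K) : dv k (θ.1 h) = actD θ (dv k h) := by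
  ext v
  rw [actD_apply', dv_ap hK, dv_ap hK, ← smul_ord_apply θ (θ⁻¹ • v) h, smul_inv_smul]

theorem val_one_of_dv (hK : IsFF k K) {h : K} (h0 : h ≠ 0) {v : Place k K} (hv : dv k h v = 0) :
    v.val h = 1 := (v.val_one_iff (v.val_ne h0)).2 (by rwa [dv_ap hK] at hv)

theorem dv_of_val_one (hK : IsFF k K) {h : K} {v : Place k K} (hv : v.val h = 1) :
    dv k h v = 0 := by rw [dv_ap hK, v.ord_of_val_one hv]

/-- If `h` is a unit on the divisor of `g`, then `g` is a unit on every `l`-th part of the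
divisor of `h`. -/
theorem off_symm (hK : IsFF k K) {g h : K} (hg : g ≠ 0) (H : Off h (dv k g)) {D : Dv k K} {l : ℤ}
    (hl : l ≠ 0) (hD : dv k h = l • D) : Off g D := fun v hv => by
  by_contra hne
  have h1 : dv k g v ≠ 0 := fun e => hne (val_one_of_dv hK hg e)
  have h2 := dv_of_val_one hK (H v h1)
  rw [hD, Finsupp.smul_apply, smul_eq_mul] at h2
  exact hv ((mul_eq_zero.1 h2).resolve_left hl)

/-- Values are transported by semilinear automorphisms. -/
theorem evD_act (hK : IsFF k K) (θ : SA k K) (t : k →+* k)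
    (ht : ∀ c, θ.1 (algebraMap k K c) = algebraMap k K (t c)) {h : K} {D : Dv k K}
    (hD : Off h D) : evD (θ.1 h) (actD θ D) = t (evD h D) := by
  rw [evD, evD, actD, prod_mapDomain_index_inj (MulAction.injective θ), Finsupp.prod,
    Finsupp.prod, map_prod]
  exact Finset.prod_congr rfl fun v hv => by
    rw [smul_ev ((res hK v).ev_spec (hD v (mem_support_iff.1 hv)).le) (ht _), map_zpow₀]

end EvD

section BC

variable {k K Ω : Type} [Field k] [IsAlgClosed k] [Field K] [Algebra k K] [Field Ω]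
  [Algebra k Ω] (B : BCK k K Ω)

omit [IsAlgClosed k] in
theorem am_const (c : k) :
    algebraMap K B.F (algebraMap k K c) = algebraMap Ω B.F (algebraMap k Ω c) := by
  rw [← IsScalarTower.algebraMap_apply, ← IsScalarTower.algebraMap_apply]

theorem io_sub (hK : IsFF k K) {z : Place k K} {h : K} (hz : z.val h ≤ 1) :
    (B.io z).val (algebraMap K B.F h - algebraMap Ω B.F (algebraMap k Ω (z.ev h))) < 1 := by
  rw [← am_const, ← map_sub, B.io_val]
  exact (res hK z).ev_spec hz

theorem io_ev (hK : IsFF k K) {z : Place k K} {h : K} (hz : z.val h ≤ 1) :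
    (B.io z).ev (algebraMap K B.F h) = algebraMap k Ω (z.ev h) :=
  Place.ev_eq _ (io_sub B hK hz)

omit [IsAlgClosed k] in
theorem act_eq (σ : Ω ≃ₐ[k] Ω) (w : Place Ω B.F) (H : ∀ (h : K) (a : Ω),
    w.val (algebraMap K B.F h - algebraMap Ω B.F a) < 1 → σ a = a) : B.act σ • w = w := by
  refine (B.uniq _ _ fun h a ha => ?_).symm
  have := smul_val_apply (B.act σ) w (algebraMap K B.F h - algebraMap Ω B.F a)
  rw [map_sub, B.act_K, B.act_Ω, H h a ha] at this
  rwa [this]

theorem act_io (hK : IsFF k K) (σ : Ω ≃ₐ[k] Ω) (z : Place k K) : B.act σ • B.io z = B.io z := by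
  refine act_eq B σ _ fun h a ha => ?_
  have h1 : z.val h ≤ 1 := by rw [← B.io_val]; exact Place.le_of_sub_lt _ ha
  rw [Place.const_eq _ ha (io_sub B hK h1), σ.commutes]

theorem actD_io (hK : IsFF k K) (σ : Ω ≃ₐ[k] Ω) (D : Dv k K) :
    actD (B.act σ) (D.mapDomain B.io) = D.mapDomain B.io := by
  rw [actD, ← mapDomain_comp]
  exact mapDomain_congr fun z _ => act_io B hK σ z

theorem evD_io (hK : IsFF k K) {h : K} {D : Dv k K} (hD : Off h D) :
    evD (algebraMap K B.F h) (D.mapDomain B.io) = algebraMap k Ω (evD h D) := by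
  rw [evD, evD, prod_mapDomain_index_inj B.io_inj, Finsupp.prod, Finsupp.prod, map_prod]
  exact Finset.prod_congr rfl fun v hv => by
    rw [io_ev B hK (hD v (mem_support_iff.1 hv)).le, map_zpow₀]

omit [IsAlgClosed k] in
theorem off_of_io {h : K} (h0 : h ≠ 0) {X : Dv Ω B.F}
    (H : ∀ z, X (B.io z) ≠ 0 → z.val h = 1) : Off (algebraMap K B.F h) X := fun w hw => by
  rcases B.io_or w with ⟨z, rfl⟩ | h1
  · rw [B.io_val]; exact H z hw
  · exact h1 h h0

omit [IsAlgClosed k] in
theorem off_io {h : K} (h0 : h ≠ 0) {D : Dv k K} (hD : Off h D) :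
    Off (algebraMap K B.F h) (D.mapDomain B.io) :=
  off_of_io B h0 fun z hz => hD z (by rwa [mapDomain_apply B.io_inj] at hz)

omit [IsAlgClosed k] in
theorem dv_io {h : K} {D : Dv k K} {l : ℤ} (hD : dv k h = l • D) :
    dv Ω (algebraMap K B.F h) = l • D.mapDomain B.io := by
  rw [B.io_dv, hD, mapDomain_smul]

omit [IsAlgClosed k] in
theorem pl_ev (η : K →ₐ[k] Ω) (h : K) : (B.pl η).ev (algebraMap K B.F h) = η h :=
  Place.ev_eq _ (B.pl_val η h)

omit [IsAlgClosed k] in
theorem pl_one (η : K →ₐ[k] Ω) {h : K} (h0 : h ≠ 0) : (B.pl η).val (algebraMap K B.F h) = 1 :=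
  Place.eq_one_of_sub _ (B.pl_val η h) (by simpa using h0)

end BC

theorem mem_range_of_pow {k Ω : Type} [Field k] [IsAlgClosed k] [Field Ω] [Algebra k Ω] {x : Ω}
    {l : ℕ} (hl : 0 < l) {c : k} (hx : x ^ l = algebraMap k Ω c) :
    x ∈ Set.range (algebraMap k Ω) := by
  by_contra h
  exact transc_of_nonconst h (IsAlgebraic.of_pow hl (hx ▸ isAlgebraic_algebraMap c))

section Main

variable {k K Ω : Type} [Field k] [IsAlgClosed k] [Field K] [Algebra k K]
  [Field Ω] [IsAlgClosed Ω] [Algebra k Ω] [Algebra K Ω] [IsScalarTower k K Ω]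
  {B : BCK k K Ω} {l : ℕ} {x₀ : Place k K}

/-- The computation for a representative in general position. -/
theorem core (hWR : StmtWR) (hK : IsFF k K) (hl : 0 < l) (C : Coc0 B l x₀) (τ : Ω ≃ₐ[K] Ω)
    {f g : K} {D G : Dv k K} {ψ : B.F} {r : Ω} (hf : f ≠ 0) (hg : g ≠ 0)
    (hD : dv k f = (l : ℤ) • D) (hG : dv k g = (l : ℤ) • G)
    (hψ : (B.act (τ.restrictScalars k)).1 C.Φ = C.Φ * algebraMap K B.F g * ψ ^ l)
    (h0 : x₀.val f = 1) (hE : ∀ z, C.E (B.io z) ≠ 0 → z.val f = 1)
    (hp : ∀ z, dv Ω ψ (B.io z) ≠ 0 → z.val f = 1) (hfG : Off f G) (hgD : Off g D)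
    (hr : r ^ l = algebraMap K Ω f) :
    τ r * algebraMap k Ω (evD f G) = algebraMap k Ω (evD g D) * r := by
  have hF := B.ff
  have hl' : (l : ℤ) ≠ 0 := by exact_mod_cast hl.ne'
  set θ := B.act (τ.restrictScalars k) with hθ
  set f' := algebraMap K B.F f with hf'
  set g' := algebraMap K B.F g with hg'
  set D' := D.mapDomain B.io with hD'
  set G' := G.mapDomain B.io with hG'
  have hf0 : f' ≠ 0 := by simpa [hf'] using hf
  have hg0 : g' ≠ 0 := by simpa [hg'] using hg
  have hψ0 : ψ ≠ 0 := by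
    rintro rfl
    rw [zero_pow hl.ne', mul_zero, map_eq_zero_iff _ θ.1.injective] at hψ
    exact C.ne hψ
  have dvf : dv Ω f' = (l : ℤ) • D' := dv_io B hD
  have dvg : dv Ω g' = (l : ℤ) • G' := dv_io B hG
  have o1 : Off f' (single (B.pl (eta k K Ω)) 1) := off_single (pl_one B _ hf) 1
  have o2 : Off f' (single (B.io x₀) 1) := off_single (by rw [hf', B.io_val, h0]) 1
  have o3 : Off f' C.E := off_of_io B hf hE
  have o4 : Off f' (dv Ω ψ) := off_of_io B hf hp
  have o5 : Off f' G' := off_io B hf hfG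
  have o6 : Off f' (dv Ω C.Φ) := by
    rw [C.div, sub_eq_add_neg]
    exact off_add (off_add o1 (off_neg o2)) (off_smul o3 _)
  have p1 : Off C.Φ D' := off_symm hF C.ne o6 hl' dvf
  have p2 : Off g' D' := off_io B hg hgD
  have p3 : Off ψ D' := off_symm hF hψ0 o4 hl' dvf
  have hP := evD_ne hF p1
  have hQ := evD_ne hF o3
  have hR := evD_ne hF p3
  have hx : x₀.ev f ≠ 0 := (res hK x₀).ev_ne_zero h0
  have hx' : algebraMap k Ω (x₀.ev f) ≠ 0 := by simpa using hx
  -- first reciprocity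
  have w1 := hWR Ω B.F hF f' C.Φ hf0 C.ne o6
  rw [dvf, evD_smul, C.div, sub_eq_add_neg, evD_add hF (off_add o1 (off_neg o2)) (off_smul o3 _),
    evD_add hF o1 (off_neg o2), evD_neg, evD_single, evD_single, evD_smul, zpow_one, zpow_one,
    hf', pl_ev, io_ev B hK h0.le, ← hf', zpow_natCast, zpow_natCast] at w1
  have e1 : (r * evD f' C.E / evD C.Φ D') ^ l = algebraMap k Ω (x₀.ev f) := by
    rw [div_pow, mul_pow, hr, ← w1, show eta k K Ω f = algebraMap K Ω f from rfl]
    have : algebraMap K Ω f ≠ 0 := by simpa using hf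
    field_simp
  obtain ⟨c, hc⟩ := mem_range_of_pow hl e1
  have e2 : r * evD f' C.E = algebraMap k Ω c * evD C.Φ D' := by
    rw [hc]; field_simp
  -- the action on the divisor
  have a1 : θ • B.pl (eta k K Ω) = B.pl (eta k K Ω) := by
    refine act_eq B _ _ fun h a ha => ?_
    rw [Place.const_eq _ ha (B.pl_val _ h)]
    exact τ.commutes h
  have a2 : actD θ C.E = C.E + G' + dv Ω ψ := by
    have h1 := dv_act hF θ C.Φ
    rw [hψ, dv_mul hF (mul_ne_zero C.ne hg0) (pow_ne_zero _ hψ0), dv_mul hF C.ne hg0, dv_pow hF,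
      dvg, C.div, actD_add, actD_sub, actD_single, actD_single, a1, act_io B hK, actD_zsmul,
      add_assoc, add_assoc, add_right_inj, ← smul_add, ← smul_add] at h1
    rw [add_assoc]
    exact (smul_right_injective _ hl' h1).symm
  have ht : ∀ c : Ω, θ.1 (algebraMap Ω B.F c) = algebraMap Ω B.F ((τ : Ω →+* Ω) c) :=
    fun c => B.act_Ω _ c
  have t1 := evD_act hF θ (τ : Ω →+* Ω) ht p1
  rw [hD', actD_io B hK, ← hD', hψ, evD_mul hF (fun v hv => by
      rw [map_mul, p1 v hv, p2 v hv, one_mul]) (fun v hv => by rw [map_pow, p3 v hv, one_pow]),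
    evD_mul hF p1 p2, evD_pow hF p3, hg', hD', evD_io B hK hgD, ← hD'] at t1
  have t2 := evD_act hF θ (τ : Ω →+* Ω) ht o3
  rw [a2, hf', B.act_K, ← hf', evD_add hF (off_add o3 o5) o4, evD_add hF o3 o5,
    hWR Ω B.F hF f' ψ hf0 hψ0 o4, dvf, evD_smul, zpow_natCast, hf', hG', evD_io B hK hfG,
    ← hf'] at t2
  have e3 := congrArg (τ : Ω →+* Ω) e2
  rw [map_mul, map_mul, ← t1, ← t2, show (τ : Ω →+* Ω) (algebraMap k Ω c) = algebraMap k Ω c from
    (τ.restrictScalars k).commutes c] at e3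
  have hR' := pow_ne_zero l hR
  apply mul_right_cancel₀ (mul_ne_zero hQ hR')
  calc τ r * algebraMap k Ω (evD f G) * (evD f' C.E * evD ψ D' ^ l)
      = (τ : Ω →+* Ω) r * (evD f' C.E * algebraMap k Ω (evD f G) * evD ψ D' ^ l) := by
        rw [RingHom.coe_coe]; ring
    _ = algebraMap k Ω (evD g D) * (algebraMap k Ω c * evD C.Φ D') * evD ψ D' ^ l := by
        rw [e3]; ring
    _ = _ := by rw [← e2]; ring

end Main

theorem kum : StmtDEG → StmtWR → StmtWP → StmtKUM := by
  intro _ hWR hWP k K Ω _ _ _ _ _ _ _ _ _ B l hl ζ e x₀ C hK hζ he τ f D b r hf hr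
  classical
  have hl0 : 0 < l := hl.out.pos
  have hl' : (l : ℤ) ≠ 0 := by exact_mod_cast hl0.ne'
  obtain ⟨mov, -⟩ := hWP k K l hK
  obtain ⟨g, G, hg, -⟩ := mov (C.c τ) ∅
  obtain ⟨ψ, hψ⟩ := C.coc τ g G hg
  obtain ⟨f₁, D₁, hf₁, hS⟩ := mov b (insert x₀ (G.support ∪
    (C.E.support.preimage B.io B.io_inj.injOn ∪ (dv Ω ψ).support.preimage B.io B.io_inj.injOn)))
  obtain ⟨y, hy⟩ := (Hl.mk_eq_mk l f₁ f).1 (hf₁.1.symm.trans hf.1)
  have hfG : Off (f₁ : K) G := fun v hv => hS v (by simp [hv])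
  have hgD : Off (g : K) D₁ := fun v hv => by
    refine val_one_of_dv hK g.ne_zero ?_
    rw [hg.2, Finsupp.smul_apply]
    by_cases h1 : G v = 0
    · rw [h1, smul_zero]
    · have h2 := dv_of_val_one hK (hfG v h1)
      rw [hf₁.2, Finsupp.smul_apply, smul_eq_mul] at h2
      exact absurd ((mul_eq_zero.1 h2).resolve_left hl') hv
  have key := core hWR hK hl0 C τ (r := r * algebraMap K Ω y) f₁.ne_zero g.ne_zero hf₁.2 hg.2 hψ
    (hS x₀ (by simp)) (fun z hz => hS z (by simp [hz])) (fun z hz => hS z (by simp [hz])) hfG hgD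
    (by rw [mul_pow, hr, hy, Units.val_mul, Units.val_pow_eq_pow_val, map_mul, map_pow])
  rw [he.2 g f₁ G D₁ _ b hg hf₁ hgD hfG, map_mul, map_mul, τ.commutes] at key
  have h1 : algebraMap k Ω (evD (f₁ : K) G) ≠ 0 := by simpa using evD_ne hK hfG
  have h2 : algebraMap K Ω y ≠ 0 := by simp
  apply mul_right_cancel₀ (mul_ne_zero h2 h1)
  rw [← mul_assoc, key]; ring

end Pool.Agent.MP_cce4c9_lc.H36
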