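import Pool.Agent.MP_cce4c9_lc.H87.SpecR

/-!
Semantics of the two tests.
-/

set_option autoImplicit false

open Polynomial Finset

namespace Pool.Agent.MP_cce4c9_lc.H36

open H87 H87.Cv

open Classical in
theorem prod_eqz {D B : Ds} {F k : Type} [CommRing F] [Field k] {π : Pres D F} {ι : F →+* k}
    {φ : El → k} (h : IsPt π ι B φ) (L : List El) :
    φ (prodL B (L.map (eqz B))) = if ∀ a ∈ L, φ a = 0 then 1 else 0 := by
  rw [h.hm.prodL]
  induction L with
  | nil => simp
  | cons a L ih =>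
    rw [List.map_cons, List.map_cons, List.prod_cons, ih, h.eqz]
    by_cases h1 : φ a = 0
    · by_cases h2 : ∀ a ∈ L, φ a = 0
      · rw [if_pos h1, if_pos h2, if_pos, one_mul]
        intro x hx
        rcases List.mem_cons.1 hx with rfl | hx
        · exact h1
        · exact h2 x hx
      · rw [if_neg h2, mul_zero, if_neg]
        exact fun H => h2 fun x hx => H x (List.mem_cons_of_mem _ hx)
    · rw [if_neg h1, zero_mul, if_neg]
      exact fun H => h1 (H a List.mem_cons_self)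

theorem ite_iff {k : Type} [Field k] {p q : Prop} (dp : Decidable p) (dq : Decidable q)
    (h : p ↔ q) : (@ite k p dp 1 0) = @ite k q dq 1 0 := by
  by_cases hp : p
  · rw [if_pos hp, if_pos (h.1 hp)]
  · rw [if_neg hp, if_neg fun hq => hp (h.2 hq)]

theorem getD_map' {α β : Type} (g : α → β) (c : List α) (e : ℕ) (a : α) (b : β) (h : g a = b) :
    (c.map g).getD e b = g (c.getD e a) := by
  rw [← h]
  exact List.getD_map c a g

theorem ent_map (g : El → El) (hg : g [] = []) (c : Tab) (e J : ℕ) :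
    ent (c.map (List.map g)) e J = g (ent c e J) := by
  rw [ent, ent, getD_map' (List.map g) c e [] [] rfl, getD_map' g _ J [] [] hg]

theorem sum_getD (al : List ℕ) : al.sum = ∑ i ∈ range al.length, al.getD i 0 := by
  rw [← sum_map_range]
  congr 1
  apply List.ext_getElem
  · simp
  · intro i h1 h2
    simp [List.getD_eq_getElem?_getD, h1]

theorem sum_le (al : List ℕ) (l : ℕ) (h : ∀ a ∈ al, a ≤ l) : al.sum ≤ l * al.length := by
  have := List.sum_le_card_nsmul al l h
  rwa [smul_eq_mul, mul_comm] at this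

theorem inp_pt {D B : Ds} {F k R : Type} [CommRing F] [Field k] [CommRing R] {π : Pres D F}
    {ι : F →+* k} {fl : List El} {d : ℕ} {f : k[X]} (hI : Inp π ι fl d f) (π' : Pres B R)
    (P : R →+* k) (hd : dim D ≤ dim B)
    (h : ∀ a : El, a.length ≤ dim D → P (π'.val a) = ι (π.val a)) : Inp π' P fl d f := by
  refine ⟨hI.1, fun a ha => (hI.2.1 a ha).trans hd, ?_⟩
  rw [← hI.2.2, toM_map, toM_map, toM, toM, toP_congr fun a ha => h a (hI.2.1 a ha)]

section

variable {k : Type} [Field k] {d m : ℕ} {f : k[X]} {C : Cv k d m f}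

theorem hat_mem (hA : C.HA) (N : ℕ) (c : ℕ → ℕ → k) : C.hat N c ∈ C.FN N :=
  (hA.memF N _).2 ⟨c, rfl⟩

theorem prod_mem (hA : C.HA) (N r : ℕ) (y : ℕ → C.Q) (a : ℕ → ℕ) (hy : ∀ i < r, y i ∈ C.FN N) :
    ∏ i ∈ range r, y i ^ a i ∈ C.FN ((∑ i ∈ range r, a i) * N) := by
  induction r with
  | zero => simpa using hA.oneF
  | succ r ih =>
    rw [prod_range_succ, sum_range_succ, add_mul]
    exact hA.mulF _ _ _ _ (ih fun i hi => hy i (by omega)) (hA.powF _ _ _ (hy r (by omega)))

theorem val_prodH (hA : C.HA) {B : Ds} {R : Type} [CommRing R] (π : Pres B R) (P : R →+* k)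
    {fl : List El} {n : ℕ} (H : HS C B fl n fun a => P (π.val a)) (N : ℕ) (cl : List Tab)
    (al : List ℕ) (y : C.AI) (hy : (y : C.Q) = ∏ i ∈ range cl.length,
      C.hat N (tb (fun a => P (π.val a)) (cl.getD i [])) ^ al.getD i 0) :
    H.Ψ (H.πH.val (prodH B fl d m n N cl al)) = H.pr y := by
  have hm := H.πH.hm.comp H.Ψ
  have mem : ∀ c, C.hat N c ∈ C.AI := fun c => (hA.memI _).2 ⟨N, hat_mem hA N c⟩
  have e : y = ∏ i ∈ range cl.length,
      (⟨C.hat N (tb (fun a => P (π.val a)) (cl.getD i [])), mem _⟩ : C.AI) ^ al.getD i 0 := by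
    apply Subtype.ext
    rw [hy]
    push_cast
    rfl
  have h1 := hm.prodL_range cl.length fun i => pw (hatT B fl d m n).1
    (mkHat (hatT B fl d m n).1 (rt1 B n) (hatT B fl d m n).2 d m N
      ((cl.getD i []).map (List.map (tk B)))) (al.getD i 0)
  rw [e, map_prod]
  refine h1.trans (prod_congr rfl fun i _ => ?_)
  rw [map_pow]
  refine (hm.pw _ _).trans ?_
  congr 1
  refine H.hat _ _ N _ (tb (fun a => P (π.val a)) (cl.getD i [])) _ hm (fun _ _ => rfl)
    (fun e J => ?_) rfl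
  rw [ent_map (tk B) (by simp [tk])]
  have h2 := H.cst (tk B (ent (cl.getD i []) e J)) (by simp [tk, dim])
  refine h2.trans ?_
  have h3 := π.val_take (ent (cl.getD i []) e J)
  show H.pr (algebraMap k C.AI (P (π.val ((ent (cl.getD i []) e J).take (dim B))))) = _
  rw [h3]
  rfl

theorem coef_spec {B : Ds} {fl : List El} {n : ℕ} {φ : El → k} (H : HS C B fl n φ) (a : El)
    (z : C.AI) (hz : H.Ψ (H.πH.val a) = H.pr z) :
    ∃ r ∈ C.AI, (z : C.Q) - C.rec' n (fun e J => φ (coefH B n a e J)) = C.s ^ n * r := by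
  obtain ⟨y, hy, h⟩ := H.coef a
  have := (H.ker (z - y)).1 (by rw [map_sub, ← hz, h, sub_self])
  rw [← hy]
  simpa using this

theorem gg_prod (N r : ℕ) (u : ℕ → C.HH) (a : ℕ → ℕ) (hu : ∀ i < r, C.GG (N : ℤ) (u i).1) :
    C.GG (((∑ i ∈ range r, a i) * N : ℕ) : ℤ) (∏ i ∈ range r, u i ^ a i : C.HH).1 := by
  induction r with
  | zero => simpa using GG.one
  | succ r ih =>
    rw [prod_range_succ, sum_range_succ]
    have := (ih fun i hi => hu i (by omega)).mul ((hu r (by omega)).pow (a r))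
    have e : ((((∑ i ∈ range r, a i) + a r) * N : ℕ) : ℤ) =
        (((∑ i ∈ range r, a i) * N : ℕ) : ℤ) + (a r : ℤ) * (N : ℤ) := by
      push_cast
      ring
    rw [e]
    exact this

theorem mk_prod (l r : ℕ) (u : ℕ → C.HH) (a : ℕ → ℕ) :
    Hl.mk l (∏ i ∈ range r, u i ^ a i) = ∑ i ∈ range r, a i • Hl.mk l (u i) := by
  induction r with
  | zero => simpa using Hl.mk_one (H := C.HH) l
  | succ r ih => rw [prod_range_succ, sum_range_succ, Hl.mk_mul, ih, Hl.mk_pow]

end

theorem tst1_ (hH : StmtHALG) : StmtTST1 := by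
  classical
  intro F k _ _ D π ι fl d m l f C hI hA hT B φ cl al x hP hlen hal hx
  have hP' := hP
  obtain ⟨R, _, π', P, hch, hd, hφ1, hφ2⟩ := hP'
  obtain rfl : φ = fun a => P (π'.val a) := funext hφ2
  set n := l * N0 d m * (l * cl.length) + 1 with hn
  obtain ⟨H⟩ := hH k d m f C B R π' P fl n hA (inp_pt hI π' P hd hφ1) (by omega)
  have hx' : ∀ i, ∃ u : C.HH, i < cl.length →
      (u.1 : C.Q) = C.psi (l * N0 d m) (tb (fun a => P (π'.val a)) (cl.getD i [])) ∧
        C.Good l u.1 ∧ Hl.mk l u = (x i).1 := fun i => by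
    by_cases hi : i < cl.length
    · obtain ⟨u, hu⟩ := hx i hi
      exact ⟨u, fun _ => hu⟩
    · exact ⟨1, fun h => absurd h hi⟩
  choose u hu using hx'
  have hs : al.sum = ∑ i ∈ range cl.length, al.getD i 0 := by rw [sum_getD, hlen]
  have hle : al.sum ≤ l * cl.length := by rw [← hlen]; exact sum_le al l hal
  have eN : l * (N0 d m * al.sum) = (∑ i ∈ range cl.length, al.getD i 0) * (l * N0 d m) := by
    rw [← hs]
    ring
  set U : C.HH := ∏ i ∈ range cl.length, u i ^ al.getD i 0 with hU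
  have hUs : (U.1 : C.Q) * C.s ^ (l * (N0 d m * al.sum)) = ∏ i ∈ range cl.length,
      C.hat (l * N0 d m) (tb (fun a => P (π'.val a)) (cl.getD i [])) ^ al.getD i 0 := by
    have e1 : (U.1 : C.Q) = ∏ i ∈ range cl.length, ((u i).1 : C.Q) ^ al.getD i 0 := by
      rw [hU]
      push_cast
      rfl
    rw [e1, eN, sum_mul, ← prod_pow_eq_pow_sum, ← prod_mul_distrib]
    refine prod_congr rfl fun i hi => ?_
    rw [← hA.psi_hat, ← (hu i (mem_range.1 hi)).1, mul_pow, ← pow_mul, mul_comm (l * N0 d m)]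
  have hUF : (U.1 : C.Q) * C.s ^ (l * (N0 d m * al.sum)) ∈ C.FN (l * (N0 d m * al.sum)) := by
    rw [hUs, eN]
    exact prod_mem hA _ _ _ _ fun i _ => hat_mem hA _ _
  have hUG : C.GG ((l * (N0 d m * al.sum) : ℕ) : ℤ) U.1 := by
    rw [eN]
    exact gg_prod _ _ u _ fun i hi => (hu i hi).2.1.1
  have hlt : l * (N0 d m * al.sum) < n := by
    have : l * (N0 d m * al.sum) ≤ l * N0 d m * (l * cl.length) := by
      rw [← mul_assoc]
      exact Nat.mul_le_mul_left _ hle
    omega
  let y : C.AI := ⟨_, (hA.memI _).2 ⟨_, hUF⟩⟩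
  have hy := val_prodH hA π' P H (l * N0 d m) cl al y hUs
  have hm := H.πH.hm.comp H.Ψ
  set a := pw (hatT B fl d m n).1 (prodH B fl d m n (l * N0 d m) cl al) (Ex l B.1 (d * n))
    with ha
  have hz : H.Ψ (H.πH.val a) = H.pr (y ^ Ex l D.1 (d * n)) := by
    rw [map_pow, ← hy, ← hch]
    exact hm.pw _ _
  have key := hT (N0 d m * al.sum) n U (fun e J => P (π'.val (coefH B n a e J))) hUG hUF hlt
    (by simpa using coef_spec H a _ hz)
  have e0 : Hl.mk l U = (∑ i ∈ range cl.length, al.getD i 0 • x i : C.MM l).1 := by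
    rw [hU, mk_prod]
    push_cast
    exact sum_congr rfl fun i hi => by rw [(hu i (mem_range.1 hi)).2.2]
  have e1 : tst1 fl d m l B cl al = prodL B (((List.range (d ^ m)).flatMap fun J =>
      ((List.range n).filter fun e => decide (N0 d m * al.sum < e + ds d m J)).map fun e =>
        coefH B n a e J).map (eqz B)) := by
    rw [tst1, List.map_flatMap]
    simp only [List.map_map]
    rfl
  rw [e1]
  refine (prod_eqz hP _).trans (ite_iff _ _ ?_)
  rw [← Submodule.coe_eq_zero, ← e0, key]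
  constructor
  · intro h J hJ e he hlt'
    refine h _ (List.mem_flatMap.2 ⟨J, List.mem_range.2 hJ, List.mem_map.2 ⟨e, ?_, rfl⟩⟩)
    exact List.mem_filter.2 ⟨List.mem_range.2 he, by simpa using hlt'⟩
  · intro h b hb
    obtain ⟨J, hJ, hb⟩ := List.mem_flatMap.1 hb
    obtain ⟨e, he, rfl⟩ := List.mem_map.1 hb
    obtain ⟨he1, he2⟩ := List.mem_filter.1 he
    exact h J (List.mem_range.1 hJ) e (List.mem_range.1 he1) (by simpa using he2)

theorem tst0_ (hH : StmtHALG) : StmtTST0 := by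
  classical
  intro F k _ _ D π ι fl d m l f C B φ cl al hI hA hP hlen hal
  have hP' := hP
  obtain ⟨R, _, π', P, hch, hd, hφ1, hφ2⟩ := hP'
  obtain rfl : φ = fun a => P (π'.val a) := funext hφ2
  set n := 2 * w0 d m * (l * cl.length) + 1 with hn
  obtain ⟨H⟩ := hH k d m f C B R π' P fl n hA (inp_pt hI π' P hd hφ1) (by omega)
  have hs : al.sum = ∑ i ∈ range cl.length, al.getD i 0 := by rw [sum_getD, hlen]
  have hle : al.sum ≤ l * cl.length := by rw [← hlen]; exact sum_le al l hal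
  rw [← hs]
  have h1 : ∏ i ∈ range cl.length,
      C.hat (2 * w0 d m) (tb (fun a => P (π'.val a)) (cl.getD i [])) ^ al.getD i 0 ∈
        C.FN (al.sum * (2 * w0 d m)) := by
    rw [hs]
    exact prod_mem hA _ _ _ _ fun i _ => hat_mem hA _ _
  have h2 : C.dlh ^ al.sum ∈ C.FN (al.sum * (2 * w0 d m)) :=
    hA.powF _ _ _ (hA.monoF _ _ (by omega) hA.dlF)
  have hlt : al.sum * (2 * w0 d m) < n := by
    have : al.sum * (2 * w0 d m) ≤ 2 * w0 d m * (l * cl.length) := by
      rw [mul_comm]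
      exact Nat.mul_le_mul_left _ hle
    omega
  let y : C.AI := ⟨_, (hA.memI _).2 ⟨_, h1⟩⟩
  let z : C.AI := ⟨_, (hA.memI _).2 ⟨_, hA.dlF⟩⟩
  have hy := val_prodH hA π' P H (2 * w0 d m) cl al y rfl
  have hm := H.πH.hm.comp H.Ψ
  have hz := H.del _ _ z hm (fun _ _ => rfl) rfl
  set a := sub (hatT B fl d m n).1 (prodH B fl d m n (2 * w0 d m) cl al)
    (pw (hatT B fl d m n).1 (delH (hatT B fl d m n).1 (rt1 B n) (hatT B fl d m n).2 fl d m)
      al.sum) with ha
  have hw : H.Ψ (H.πH.val a) = H.pr (y - z ^ al.sum) := by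
    rw [map_sub, map_pow, ← hy, ← hz, ← hm.pw]
    exact hm.sub _ _
  obtain ⟨r, hr, key⟩ := coef_spec H a _ hw
  have e2 : ((y - z ^ al.sum : C.AI) : C.Q) = ∏ i ∈ range cl.length,
      C.hat (2 * w0 d m) (tb (fun a => P (π'.val a)) (cl.getD i [])) ^ al.getD i 0 -
        C.dlh ^ al.sum := by
    push_cast
    rfl
  rw [e2] at key
  have e1 : tst0 fl d m l B cl al = prodL B (((List.range (d ^ m)).flatMap fun J =>
      (List.range n).map fun e => coefH B n a e J).map (eqz B)) := by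
    rw [tst0, List.map_flatMap]
    simp only [List.map_map]
    rfl
  rw [e1]
  refine (prod_eqz hP _).trans (ite_iff _ _ ?_)
  constructor
  · intro h
    have h0 : C.rec' n (fun e J => P (π'.val (coefH B n a e J))) = 0 := by
      refine sum_eq_zero fun J hJ => sum_eq_zero fun e he => ?_
      have := h _ (List.mem_flatMap.2 ⟨J, List.mem_range.2 (mem_range.1 hJ),
        List.mem_map.2 ⟨e, List.mem_range.2 (mem_range.1 he), rfl⟩⟩)
      simp only [this, map_zero, zero_mul]
    rw [h0, sub_zero] at key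
    exact sub_eq_zero.1 (hA.truncF _ n _ hlt (Submodule.sub_mem _ h1 h2) ⟨r, hr, key⟩)
  · intro h b hb
    obtain ⟨J, hJ, hb⟩ := List.mem_flatMap.1 hb
    obtain ⟨e, he, rfl⟩ := List.mem_map.1 hb
    rw [h, sub_self, zero_sub] at key
    exact hA.trunc n (fun e J => P (π'.val (coefH B n a e J)))
      ⟨-r, neg_mem hr, by rw [mul_neg, ← key, neg_neg]⟩ J (List.mem_range.1 hJ) e
      (List.mem_range.1 he)

end Pool.Agent.MP_cce4c9_lc.H36
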